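import Pool.Agent.W852.MLS.Const

/-!
# The modified log-Sobolev constant is not controlled by entropic mixing or hitting times

For every constant `C` there is a finite irreducible reversible chain (a birth and death chain on
`{0, ..., n}`) whose inverse modified log-Sobolev constant is larger than `C` times its entropy
hitting-time parameter and larger than `C` times its entropy mixing time.
-/

namespace Pool.Agent.Results.MP_bada7b_pr.EntropyMixingNotMLS

open EntMLS Filter Topology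

theorem exists_n (Cent K : ℝ) (hCent : 0 < Cent) (hK : 1 ≤ K) : ∃ n : ℕ, 8 ≤ n ∧
    (1 / 2 : ℝ) ^ n + (4 * Real.exp (-(n / (100 * K))) + 16 * (3 / 4) ^ n) * (2 * n + 1) ≤ 1 / 2 ∧
    4 * Real.exp (-(n / (100 * K))) ≤ Cent / (2 * n + 1) ∧
    4 * Real.exp (-(n / (100 * K))) ≤ 99 / 100 := by
  set r := Real.exp (-(1 / (100 * K))) with hr
  have hr0 : 0 ≤ r := (Real.exp_pos _).le
  have hr1 : r < 1 := by
    rw [hr, Real.exp_lt_one_iff]
    have : 0 < 1 / (100 * K) := by positivity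
    linarith
  have hpow : ∀ n : ℕ, Real.exp (-(n / (100 * K))) = r ^ n := by
    intro n
    rw [hr, ← Real.exp_nat_mul]
    congr 1; ring
  have t1 : Tendsto (fun n : ℕ => (n : ℝ) * r ^ n) atTop (𝓝 0) :=
    tendsto_self_mul_const_pow_of_lt_one hr0 hr1
  have t2 : Tendsto (fun n : ℕ => r ^ n) atTop (𝓝 0) := tendsto_pow_atTop_nhds_zero_of_lt_one hr0 hr1
  have t3 : Tendsto (fun n : ℕ => (n : ℝ) * (3 / 4) ^ n) atTop (𝓝 0) :=
    tendsto_self_mul_const_pow_of_lt_one (by norm_num) (by norm_num)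
  have t4 : Tendsto (fun n : ℕ => (3 / 4 : ℝ) ^ n) atTop (𝓝 0) :=
    tendsto_pow_atTop_nhds_zero_of_lt_one (by norm_num) (by norm_num)
  have t5 : Tendsto (fun n : ℕ => (1 / 2 : ℝ) ^ n) atTop (𝓝 0) :=
    tendsto_pow_atTop_nhds_zero_of_lt_one (by norm_num) (by norm_num)
  have s1 : Tendsto (fun n : ℕ => (1 / 2 : ℝ) ^ n + (8 * ((n : ℝ) * r ^ n) + 4 * r ^ n +
      (32 * ((n : ℝ) * (3 / 4) ^ n) + 16 * (3 / 4) ^ n))) atTop (𝓝 0) := by
    have := t5.add (((t1.const_mul 8).add (t2.const_mul 4)).add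
      ((t3.const_mul 32).add (t4.const_mul 16)))
    simpa using this
  have s2 : Tendsto (fun n : ℕ => 8 * ((n : ℝ) * r ^ n) + 4 * r ^ n) atTop (𝓝 0) := by
    have := (t1.const_mul 8).add (t2.const_mul 4)
    simpa using this
  have s3 : Tendsto (fun n : ℕ => 4 * r ^ n) atTop (𝓝 0) := by
    have := t2.const_mul 4
    simpa using this
  have e1 := s1.eventually (gt_mem_nhds (show (0:ℝ) < 1 / 2 by norm_num))
  have e2 := s2.eventually (gt_mem_nhds hCent)
  have e3 := s3.eventually (gt_mem_nhds (show (0:ℝ) < 99 / 100 by norm_num))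
  obtain ⟨n, h1, h2, h3, h4⟩ := (e1.and (e2.and (e3.and (eventually_ge_atTop 8)))).exists
  refine ⟨n, h4, ?_, ?_, ?_⟩
  · rw [hpow]
    refine le_trans (le_of_eq ?_) h1.le
    ring
  · rw [hpow, le_div_iff₀ (by positivity)]
    refine le_trans (le_of_eq ?_) h2.le
    ring
  · rw [hpow]; exact h3.le

/-- For every value `Cent > 0` of the constant in the definition of the entropy hitting-time
parameter and every `C` there is a finite irreducible reversible chain with
`1 / c_MLS > C * rho_ent` and `1 / c_MLS > C * tau_ent`. -/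
theorem result (Cent : ℝ) (hCent : 0 < Cent) (C : ℝ) :
    ∃ (n : ℕ) (P : Matrix (Fin n) (Fin n) ℝ) (π : Fin n → ℝ),
      IsChain P π ∧ 0 < cMLS P π ∧
      C * rhoEnt P π Cent < 1 / cMLS P π ∧ C * tauEnt P π < 1 / cMLS P π := by
  set K := max C 1 with hKdef
  have hK : 1 ≤ K := le_max_right _ _
  obtain ⟨n, hn8, h1, h2, h3⟩ := exists_n Cent K hCent hK
  have hn1 : 1 ≤ n := by omega
  refine ⟨n + 1, PP n, pv n, PP_chain n, cMLS_pos hn1, ?_⟩
  have hch := PP_chain n
  set l : ℝ := n / (100 * K) with hl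
  have hl0 : 0 ≤ l := by positivity
  set T : ℝ := 16 * l * (3 / 2) ^ n with hT
  have hT0 : 0 ≤ T := by positivity
  have hnpos : (0:ℝ) < n := by exact_mod_cast hn1
  have htau : tauEnt (PP n) (pv n) ≤ T := by
    refine ciSup_le fun x => ?_
    refine csInf_le ⟨0, fun t ht => ht.1⟩ ⟨hT0, ?_⟩
    exact (kl_le hn1 hl0 x).trans h1
  have hrho : rhoEnt (PP n) (pv n) Cent ≤ T := by
    refine ciSup_le fun x => ?_
    refine csInf_le ⟨0, fun t ht => ht.1⟩ ⟨hT0, ?_⟩
    intro A hAne _ hA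
    refine (stay_le hn1 hl0 hA x).trans (le_min ?_ h3)
    refine h2.trans ?_
    obtain ⟨a, ha⟩ := hAne
    have hs : (1 / 2 : ℝ) ^ (2 * n + 1) ≤ ∑ a ∈ A, pv n a :=
      (pv_ge a).trans (Finset.single_le_sum (fun z _ => (hch.pi_pos z).le) ha)
    have hs0 : 0 < ∑ a ∈ A, pv n a := lt_of_lt_of_le (by positivity) hs
    have hlog : Real.log (∑ a ∈ A, pv n a) < 0 := Real.log_neg hs0 (by linarith)
    rw [abs_of_neg hlog]
    exact div_le_div_of_nonneg_left hCent.le (by linarith) (log_pv hs)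
  have hpos := cMLS_pos hn1
  have hmain : K * T < 1 / cMLS (PP n) (pv n) := by
    rw [lt_div_iff₀ hpos]
    have h4 := cMLS_le hn8
    have h5 : K * T * cMLS (PP n) (pv n) ≤ K * T * ((9 / 2) * (2 / 3) ^ n / n) :=
      mul_le_mul_of_nonneg_left h4 (by positivity)
    have h6 : K * T * ((9 / 2) * (2 / 3) ^ n / n) = 72 / 100 := by
      have e : ((3:ℝ) / 2) ^ n * (2 / 3) ^ n = 1 := by rw [← mul_pow]; norm_num
      have hKne : K ≠ 0 := by positivity
      have hnne : (n:ℝ) ≠ 0 := hnpos.ne'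
      calc K * T * ((9 / 2) * (2 / 3) ^ n / n) =
            (K * (16 * l) * (9 / 2) / n) * ((3 / 2) ^ n * (2 / 3) ^ n) := by rw [hT]; ring
        _ = 72 / 100 := by
          rw [e, hl]; field_simp; norm_num
    rw [h6] at h5
    linarith
  have hCK : C ≤ K := le_max_left _ _
  have hrho0 : 0 ≤ rhoEnt (PP n) (pv n) Cent := by
    refine Real.iSup_nonneg fun x => Real.sInf_nonneg fun t ht => ht.1
  have htau0 : 0 ≤ tauEnt (PP n) (pv n) := by
    refine Real.iSup_nonneg fun x => Real.sInf_nonneg fun t ht => ht.1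
  have hK0 : 0 ≤ K := by linarith
  constructor
  · calc C * rhoEnt (PP n) (pv n) Cent ≤ K * rhoEnt (PP n) (pv n) Cent :=
          mul_le_mul_of_nonneg_right hCK hrho0
      _ ≤ K * T := mul_le_mul_of_nonneg_left hrho hK0
      _ < _ := hmain
  · calc C * tauEnt (PP n) (pv n) ≤ K * tauEnt (PP n) (pv n) :=
          mul_le_mul_of_nonneg_right hCK htau0
      _ ≤ K * T := mul_le_mul_of_nonneg_left htau hK0
      _ < _ := hmain

end Pool.Agent.Results.MP_bada7b_pr.EntropyMixingNotMLS
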